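import Mathlib
import Pool.Agent.Y638.RF.ZeroSum

/-!
# 3SUM: branching programs which test real formulas

The input consists of `2 n` distinct integers of absolute value at most `(2 n) ^ 3`; the question is
whether three of them have the sum zero. The items of the input are the first `n` numbers and the
list of the other `n` numbers.

A real formula (`Fml`) is built from real constants, arbitrary real functions of one item, and
arbitrary real functions of `w` words of length `c log₂ (2 n)`, where each word is an arbitrary
function of one item, by sums, products, sign tests `pos` (with the values `0`, `1`), and gates `sym`
of any fan-in whose value is an arbitrary real function of the number of positive inputs. So it may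
contain threshold gates of unbounded fan-in with arbitrary real weights, gates which test the sign of
arithmetic formulas (a comparison of two numbers which are computed by arithmetic formulas), and
arbitrary symmetric gates, nested in any way. It accepts if its value is positive. Its size is the
number of leaves (constants are free) plus the number of wires which lead to gates `sym`. In a
branching program (`Program`) every inner node tests whether a real formula accepts; its size is the
number of inner nodes plus the sizes of all these formulas. A formula is a program with one inner
node.

We show that random branching programs of size at most `s` with error probability at most `1 / 3` need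
`n ^ 2 ≤ 14000 c w ^ 2 s`, and random formulas of size at most `s` need `n ^ 2 ≤ 6000 c w ^ 2 s`.
For `w = 2`, `c = 4` the tests see, for instance, two of the first `n` numbers.

Proof. By the coding of helper697 and helper457 (`Pool.Agent.TH457.Ary.ZeroSum`) each of the first `n`
numbers can ask for about `n log₂ n / 7` bits of the list. We count the functions of this number which
arise when the other items are fixed (Nechiporuk's method): between the `r` leaves which see the
number there are `O (r)` places at which other parts of the formula enter, the function of the value
below such a place is affine or an affine function of a threshold test, and the number of sign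
patterns on `n ^ O (1)` values of the number is `n ^ O (r)` by Warren's theorem
(`Pool.Agent.Y638.RF.Core`).
-/

set_option autoImplicit false

namespace Pool.Agent.Results.MP_8f87b2_lc.RealPrograms

open Pool.Agent.TH697.Form (IsProb)
open Pool.Agent.TH697.Row (ApproximatesOn)
open Pool.Agent.TH697.Form.ThreeSum (Item Valid)
open Pool.Agent.TH457.Ary.ZeroSum (zeroSum)
open Pool.Agent.Y638.RF (Fml Program)

theorem result : ∀ n c w : ℕ, 1000 ≤ n → 1 ≤ c → 1 ≤ w →
    ∀ (Ω : Type) [Fintype Ω] (μ : Ω → ℝ), IsProb μ → ∀ s : ℕ,
      (∀ B : Ω → Program (Option (Fin n)) (Item n n) w ((2 * n) ^ c) s,
        ApproximatesOn μ (fun ω => (B ω).eval) (Valid n n) (zeroSum n) →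
        (n : ℝ) ^ 2 ≤ 14000 * c * w ^ 2 * s) ∧
      (∀ F : Ω → Fml (Option (Fin n)) (Item n n) w ((2 * n) ^ c),
        (∀ ω, (F ω).size ≤ s) →
        ApproximatesOn μ (fun ω => (F ω).accepts) (Valid n n) (zeroSum n) →
        (n : ℝ) ^ 2 ≤ 6000 * c * w ^ 2 * s) :=
  fun _ _ _ hn hc hw _ _ μ hμ s =>
    ⟨fun B hB => Pool.Agent.Y638.RF.ZeroSum.program_bound hn hc hw μ hμ s B hB,
      fun F hs hF => Pool.Agent.Y638.RF.ZeroSum.lower (by omega) hc hw μ hμ s F hs hF⟩

end Pool.Agent.Results.MP_8f87b2_lc.RealPrograms
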