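import Pool.Agent.Q184.TS.Wc

/-!
# Integer 3SUM by word circuits: number of reads and treewidth

The input is a list of `m` different integers between `-m³` and `m³`; we ask if three of them have
the sum zero. We consider straight-line programs for such inputs (`WCirc`): each of the gates
holds a word (an element of a finite set `Z`, for instance the words of `w` bits), and computes an
ARBITRARY function of at most `κ` items of the list and words of earlier gates. The relevant
parameters are

* the number of reads `C.reads`: the number of wires from items to gates; this is a lower bound for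
  the running time,
* the treewidth `θ` of the graph of the gates (whose edges are the wires between gates; the items
  are deleted). A program with few registers has small treewidth, but a circuit of small treewidth
  may use arbitrarily many words at the same time.

**Result.** If a circuit with `C.reads ≤ r m` decides 3SUM, and the words (and the numbers
`0, …, m - 1`) fit in `w` bits, then

`m ^ (m / 2 ^ (24 r + 1)) ≤ 2 ^ (w · 10000 r² (κ + 1) (θ + 1)) + 1`.

So, if `w = O (log m)` and `κ` is constant, the treewidth is at least `m / 2 ^ (25 r + O (1))`; in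
other words: with treewidth at most `m ^ (1 - ε)` one needs `Ω (ε m log m)` reads. For random circuits
that are always correct this holds for the expected number of reads. For nondeterministic circuits
that accept exactly the lists without a solution the same trade-off holds with `2` instead of the
first `m`.

**Proof.** The general theorem on word circuits of the starting file `Pool.Agent.Y631.WcSup`: there
are sets `A` and `E` of `m / 2 ^ O (r)` places of the list and a division of the circuit into two
sides such that the places in `A` are read on the first side only, and those of `E` on the second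
side only. The `j`-th place of `A` gets the number `7 (q j + a_j) + 1`, the `j`-th place of `E` the
number `-(D + 7 (q j + b_j) + 1)`, and another place gets `D`, where `D` is a large multiple of 7; the
other places get positive numbers which are `3` modulo `7`. So there is a solution iff `a_j = b_j`
for some `j`.
-/

set_option autoImplicit false

namespace Pool.Agent.Results.MP_8f87b2_lc.TreewidthTimesReads

open Pool.Agent.Y631.Wc Pool.Agent.Q184.TS.Wc

/-- (A) Let `C` be a word circuit for lists of `m` integers, whose gates have fan-in at most `κ` and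
values in `Z`, with at most `r m` reads, and of treewidth at most `θ`. Let `2 ≤ q ≤ L`, `q ≤ m` and
`|Z| ≤ L`.

1. If `C` (nondeterministic) accepts exactly the lists without three numbers of sum zero then
   `2 ^ (m / 2 ^ (24 r + 1)) ≤ L ^ (10000 r² (κ + 1) (θ + 1))`.
2. If moreover `C` has at most one accepting computation for each input (which holds if the gates
   compute functions, `Deterministic.unambiguous`) then
   `q ^ (m / 2 ^ (24 r + 1)) ≤ L ^ (10000 r² (κ + 1) (θ + 1))`.
3. If `C` has at most one accepting computation for each input and accepts exactly the lists with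
   three numbers of sum zero then `q ^ (m / 2 ^ (24 r + 1)) ≤ L ^ (10000 r² (κ + 1) (θ + 1)) + 1`.

The circuit has to be correct only for lists of different integers between `-m³` and `m³`.

(B) For all `c`, `κ` and `0 < ε ≤ 1` and all large `m`: if random deterministic (or unambiguous)
circuits of fan-in `κ` whose gates have at most `m ^ c` values (words of `c log m` bits), of
treewidth at most `m ^ (1 - ε)`, always decide 3SUM for `m` numbers correctly, then the expected
number of reads is at least `(ε / 30) m log₂ m`. -/
theorem result :
    (∀ {r κ θ m q L : ℕ} (_ : 1 ≤ r) (_ : 2 ≤ q) (_ : q ≤ L) (_ : q ≤ m)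
      {Z : Type} [Fintype Z] (_ : Fintype.card Z ≤ L) (C : WCirc (Fin m) ℤ Z)
      (_ : C.FanIn κ) (_ : C.TreewidthLE θ) (_ : C.reads ≤ r * m),
      ((∀ x, IsSet x → (C.Accepts x ↔ ¬ HasZero x)) →
        2 ^ (m / 2 ^ (24 * r + 1)) ≤ L ^ (10000 * r ^ 2 * (κ + 1) * (θ + 1))) ∧
      (C.Unambiguous → (∀ x, IsSet x → (C.Accepts x ↔ ¬ HasZero x)) →
        q ^ (m / 2 ^ (24 * r + 1)) ≤ L ^ (10000 * r ^ 2 * (κ + 1) * (θ + 1))) ∧
      (C.Unambiguous → (∀ x, IsSet x → (C.Accepts x ↔ HasZero x)) →
        q ^ (m / 2 ^ (24 * r + 1)) ≤ L ^ (10000 * r ^ 2 * (κ + 1) * (θ + 1)) + 1)) ∧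
    ∀ (c κ : ℕ) (ε : ℝ), 0 < ε → ε ≤ 1 → ∃ m₀ : ℕ, ∀ m ≥ m₀, ∀ (Z : Type) [Fintype Z],
      Fintype.card Z ≤ m ^ c → ∀ (Ω : Type) [Fintype Ω] (p : Ω → ℝ), (∀ ω, 0 ≤ p ω) →
      ∑ ω, p ω = 1 → ∀ (C : Ω → WCirc (Fin m) ℤ Z) (θ : ℕ), (θ : ℝ) ≤ (m : ℝ) ^ (1 - ε) →
        (∀ ω, (C ω).FanIn κ ∧ (C ω).TreewidthLE θ ∧ (C ω).Unambiguous ∧
          ((∀ x, IsSet x → ((C ω).Accepts x ↔ HasZero x)) ∨
            (∀ x, IsSet x → ((C ω).Accepts x ↔ ¬ HasZero x)))) →
        ε / 30 * (m * Real.logb 2 m) ≤ ∑ ω, p ω * (C ω).reads :=
  ⟨fun hr hq hqL hqm _ _ hZ C hκ hθ hR => zero_bounds hr hq hqL hqm hZ C hκ hθ hR, zero_random⟩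

end Pool.Agent.Results.MP_8f87b2_lc.TreewidthTimesReads
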