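import Mathlib
import Pool.Agent.Q184.TS.WF

/-!
# Integer 3SUM: branching programs which test formulas over machine words

The input consists of `2 n` distinct integers of absolute value at most `(2 n) ^ 3`; the question is
whether three of them have the sum zero. The items of the input are each of the first `n` numbers,
and the list of the last `n` numbers.

The formulas (`Fml`) compute with integers: they are built from constants, arbitrary functions of one
item, and arbitrary functions of `w` words of length `c log₂ (2 n)`, where each word is an arbitrary
function of one item, by sums, products, maxima, minima, sign tests `pos` (with the values `0`, `1`),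
and gates `sym` of any fan-in whose value is an arbitrary function of the number of positive inputs.
All numbers which occur have absolute value at most `(2 n) ^ v` (machine words of `O (log n)` bits).
A formula accepts if its value is positive. Its size is the number of leaves (constants are free)
plus the number of wires which lead to gates `sym`. In a branching program (`Program`) every inner
node tests whether a formula accepts; its size is the number of inner nodes plus the sizes of all
these formulas.

We show that random branching programs of size at most `s` with error probability at most `1 / 3` need
`n ^ 2 ≤ 6000 w (v + c w) s`.

Proof. By the coding of helper697 and helper457 (`Pool.Agent.TH457.Ary.ZeroSum`) each of the first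
`n` numbers can ask for about `n log₂ n / 7` bits which are encoded in the list of the last `n`
numbers. The functions of this number which arise when the other items are fixed are counted
(Nechiporuk's method): between the `r` leaves which see the number there are `O (r)` places at which
other parts of the formula enter, and the function of the value below such a place is one of the
functions `clamp (a x + b)`, or has few values; so it is given by `O (v log n)` bits, and this is
closed under composition (the counting theorem of the starting file `Pool.Agent.Y638.WF.Core`, which
was used there for the equation `a + b = c`).
-/

set_option autoImplicit false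

namespace Pool.Agent.Results.MP_8f87b2_lc.WordPrograms

open Pool.Agent.TH697.Form (IsProb)
open Pool.Agent.TH697.Row (ApproximatesOn)
open Pool.Agent.TH697.Form.ThreeSum (Item Valid)
open Pool.Agent.TH457.Ary.ZeroSum (zeroSum)
open Pool.Agent.Y638.WF (Program)

theorem result : ∀ n c w v : ℕ, 400 ≤ n → 1 ≤ c → 1 ≤ w → 1 ≤ v →
    ∀ (Ω : Type) [Fintype Ω] (μ : Ω → ℝ), IsProb μ →
      ∀ (s : ℕ) (B : Ω → Program (Option (Fin n)) (Item n n) w ((2 * n) ^ c) ((2 * n) ^ v)
          (Valid n n) s),
        ApproximatesOn μ (fun ω => (B ω).eval) (Valid n n) (zeroSum n) →
        (n : ℝ) ^ 2 ≤ 6000 * w * (v + c * w) * s :=
  fun _ _ _ _ hn hc hw hv _ _ μ hμ s B hB =>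
    Pool.Agent.Q184.TS.WF.bound hn hc hw hv μ hμ s B hB

end Pool.Agent.Results.MP_8f87b2_lc.WordPrograms
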